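import Pool.Agent.Helper25.GF.Goals

/-!
Project GF (MP_766b49_co): `WAV`, weights give lower bounds.
-/

set_option autoImplicit false

namespace Pool.Agent.Helper49.GF

theorem wav : Pool.Agent.Helper25.GF.WAV := by
  intro V _ _ G x M hx hM w hw hwI hcov
  have h1 : ∑ v, x v ≤ ∑ v, ∑ I : Finset V, (if v ∈ I then w I * x v else 0) := by
    refine Finset.sum_le_sum fun v _ => ?_
    have h2 := mul_le_mul_of_nonneg_left (hcov v) (hx v)
    rw [mul_one, Finset.mul_sum, Finset.sum_filter] at h2
    refine h2.trans (le_of_eq ?_)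
    refine Finset.sum_congr rfl fun I _ => ?_
    by_cases h : v ∈ I
    · rw [if_pos h, if_pos h, mul_comm]
    · rw [if_neg h, if_neg h]
  refine h1.trans ?_
  rw [Finset.sum_comm, Finset.mul_sum]
  refine Finset.sum_le_sum fun I _ => ?_
  have h3 : ∑ v, (if v ∈ I then w I * x v else 0) = w I * ∑ v ∈ I, x v := by
    rw [← Finset.sum_filter, Finset.mul_sum]
    refine Finset.sum_congr ?_ fun _ _ => rfl
    ext v
    simp
  rw [h3]
  by_cases h : w I = 0
  · rw [h, zero_mul, mul_zero]
  · rw [mul_comm M]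
    exact mul_le_mul_of_nonneg_left (hM I (hwI I h)) (hw I)

end Pool.Agent.Helper49.GF
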